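import Pool.Agent.helper65.FT.R

set_option autoImplicit false

namespace Pool.Agent.helper3.FT

open Finset

/-- a harmonic sum over the nonzero integers of a symmetric interval -/
lemma Z1_harm (L : ℕ) : ∑ m ∈ (Icc (-(L : ℤ)) L).filter (fun m => m ≠ 0), (1 : ℝ) / |(m : ℝ)|
    ≤ 2 * (1 + Real.log L) := by
  classical
  have hsub : (Icc (-(L : ℤ)) L).filter (fun m => m ≠ 0)
      ⊆ (Icc 1 L).image (fun j : ℕ => (j : ℤ)) ∪ (Icc 1 L).image (fun j : ℕ => -(j : ℤ)) := by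
    intro m hm
    simp only [Finset.mem_filter, Finset.mem_Icc] at hm
    simp only [Finset.mem_union, Finset.mem_image, Finset.mem_Icc]
    rcases lt_or_gt_of_ne hm.2 with h | h
    · right; exact ⟨m.natAbs, by omega, by omega⟩
    · left; exact ⟨m.natAbs, by omega, by omega⟩
  have hh : ∑ j ∈ Icc 1 L, (1 : ℝ) / j ≤ 1 + Real.log L := by
    have h := harmonic_le_one_add_log L
    rw [harmonic_eq_sum_Icc] at h
    push_cast at h
    simpa [one_div] using h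
  refine (Finset.sum_le_sum_of_subset_of_nonneg hsub (fun _ _ _ => by positivity)).trans ?_
  rw [Finset.sum_union, Finset.sum_image, Finset.sum_image]
  · simp only [Int.cast_natCast, Int.cast_neg, abs_neg, Nat.abs_cast]
    linarith
  · intro a _ b _ h; simpa using h
  · intro a _ b _ h; simpa using h
  · rw [Finset.disjoint_left]
    intro m h1 h2
    simp only [Finset.mem_image, Finset.mem_Icc] at h1 h2
    obtain ⟨a, ha, rfl⟩ := h1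
    obtain ⟨b, hb, hb'⟩ := h2
    omega

/-- multiples of `m` in a symmetric interval -/
lemma Z1_mult (E : ℕ) (m : ℤ) (hm : m ≠ 0) :
    (((Icc (-(E : ℤ)) E).filter (fun e => m ∣ e)).card : ℝ) ≤ 2 * E / |(m : ℝ)| + 1 := by
  have := R_card_class ((Icc (-(E : ℤ)) E).filter (fun e => m ∣ e)) E |m| (abs_pos.2 hm) ?_ ?_
  · push_cast at this; exact this
  · intro z hz
    simp only [Finset.mem_filter, Finset.mem_Icc] at hz
    exact abs_le.2 hz.1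
  · intro z hz w hw
    simp only [Finset.mem_filter, Finset.mem_Icc] at hz hw
    rw [abs_dvd]
    exact dvd_sub hz.2 hw.2

/-- a finite set containing `ZZ T` -/
noncomputable def Zs (T : ℕ) : Finset (ℤ × ℤ × ℤ) :=
  ((Icc (-((T ^ 2 : ℕ) : ℤ)) (T ^ 2 : ℕ)).filter (fun m => m ≠ 0) ×ˢ Icc (-(T : ℤ)) T ×ˢ
    Icc (-((T ^ 3 : ℕ) : ℤ)) (T ^ 3 : ℕ)).filter (fun t => t.1 ∣ t.2.2)

lemma ZZ_subset (T : ℕ) : ZZ T ⊆ (Zs T : Set (ℤ × ℤ × ℤ)) := by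
  rintro ⟨m, g, e⟩ ht
  simp only [ZZ, Set.mem_ofPred_eq] at ht
  obtain ⟨hm, hg, hmg, hg2, he, hd⟩ := ht
  simp only [Zs, Finset.coe_filter, Finset.mem_product, Finset.mem_filter, Finset.mem_Icc,
    Set.mem_ofPred_eq]
  have hg1 : 1 ≤ |g| := Int.one_le_abs hg
  have h1 : |m| ≤ (T : ℤ) ^ 2 := by
    rw [abs_mul] at hmg
    nlinarith [abs_nonneg m]
  have h2 : |g| ≤ T := abs_le_of_sq_le_sq hg2 (by positivity)
  push_cast
  exact ⟨⟨⟨abs_le.1 h1, hm⟩, abs_le.1 h2, abs_le.1 he⟩, hd⟩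

lemma card_Zs (T : ℕ) (hT : 1 ≤ T) : ((Zs T).card : ℝ) ≤
    (2 * T + 1) * (3 * T ^ 3 * (2 * (1 + Real.log (T ^ 2 : ℕ)))) := by
  unfold Zs
  rw [Finset.card_filter]
  push_cast
  rw [Finset.sum_product]
  have h1 : ∀ m ∈ (Icc (-((T : ℤ) ^ 2)) ((T : ℤ) ^ 2)).filter (fun m => m ≠ 0),
      ∑ y ∈ Icc (-(T : ℤ)) T ×ˢ Icc (-((T : ℤ) ^ 3)) ((T : ℤ) ^ 3),
        (if m ∣ y.2 then (1 : ℝ) else 0) ≤ (2 * T + 1) * (3 * T ^ 3) * (1 / |(m : ℝ)|) := by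
    intro m hm
    simp only [Finset.mem_filter, Finset.mem_Icc] at hm
    rw [Finset.sum_product]
    have hcst : ∀ x ∈ Icc (-(T : ℤ)) T, (∑ y ∈ Icc (-((T : ℤ) ^ 3)) ((T : ℤ) ^ 3),
        if m ∣ (x, y).2 then (1 : ℝ) else 0)
        = ∑ y ∈ Icc (-((T : ℤ) ^ 3)) ((T : ℤ) ^ 3), if m ∣ y then (1 : ℝ) else 0 :=
      fun x _ => Finset.sum_congr rfl (fun y _ => by simp)
    rw [Finset.sum_congr rfl hcst, Finset.sum_const, nsmul_eq_mul, R_card_box]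
    have h2 := Z1_mult (T ^ 3) m hm.2
    push_cast at h2
    rw [Finset.card_filter] at h2
    push_cast at h2
    have hm0 : (0 : ℝ) < |(m : ℝ)| := abs_pos.2 (by exact_mod_cast hm.2)
    have hmT : |(m : ℝ)| ≤ T ^ 3 := by
      have a1 : |m| ≤ (T : ℤ) ^ 2 := abs_le.2 hm.1
      have a2 : |(m : ℝ)| ≤ (T : ℝ) ^ 2 := by exact_mod_cast a1
      have a3 : (1 : ℝ) ≤ T := by exact_mod_cast hT
      nlinarith [sq_nonneg (T : ℝ)]
    have h3 : 2 * (T : ℝ) ^ 3 / |(m : ℝ)| + 1 ≤ 3 * T ^ 3 * (1 / |(m : ℝ)|) := by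
      rw [div_add_one hm0.ne', mul_one_div]
      gcongr
      linarith
    push_cast
    have h4 : (0 : ℝ) ≤ 2 * T + 1 := by positivity
    calc (2 * (T : ℝ) + 1) * ∑ e ∈ Icc (-((T : ℤ) ^ 3)) ((T : ℤ) ^ 3), (if m ∣ e then (1 : ℝ) else 0)
        ≤ (2 * T + 1) * (3 * T ^ 3 * (1 / |(m : ℝ)|)) := by
          gcongr
          exact h2.trans h3
      _ = _ := by ring
  refine (Finset.sum_le_sum h1).trans ?_
  rw [← Finset.mul_sum]
  have h5 := Z1_harm (T ^ 2)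
  push_cast at h5
  have : (0 : ℝ) ≤ (2 * T + 1) * (3 * T ^ 3) := by positivity
  calc (2 * (T : ℝ) + 1) * (3 * T ^ 3) * ∑ m ∈ (Icc (-((T : ℤ) ^ 2)) ((T : ℤ) ^ 2)).filter
        (fun m => m ≠ 0), 1 / |(m : ℝ)|
      ≤ (2 * (T : ℝ) + 1) * (3 * T ^ 3) * (2 * (1 + Real.log ((T : ℝ) ^ 2))) := by gcongr
    _ = _ := by ring

lemma log_le_Z1 (ε : ℝ) (hε : 0 < ε) (T : ℕ) (hT : 1 ≤ T) :
    1 + Real.log T ≤ (1 + 1 / ε) * (T : ℝ) ^ ε := by
  have h1 := Real.log_le_rpow_div (x := (T : ℝ)) (by positivity) hε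
  have h2 : (1 : ℝ) ≤ (T : ℝ) ^ ε := Real.one_le_rpow (by exact_mod_cast hT) hε.le
  have h3 : (T : ℝ) ^ ε / ε = 1 / ε * (T : ℝ) ^ ε := by ring
  rw [h3] at h1
  linarith

/-- Z1 -/
theorem count_ZZ (ε : ℝ) (hε : 0 < ε) : ∃ C : ℝ, 1 ≤ C ∧ ∀ T : ℕ, 1 ≤ T →
    (ZZ T).Finite ∧ ((ZZ T).ncard : ℝ) ≤ C * (T : ℝ) ^ (4 + ε) := by
  refine ⟨36 * (1 + 1 / ε), ?_, fun T hT => ?_⟩
  · have : 0 < 1 / ε := by positivity
    linarith
  · have hfin : (ZZ T).Finite := (Finset.finite_toSet (Zs T)).subset (ZZ_subset T)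
    refine ⟨hfin, ?_⟩
    have h1 : (ZZ T).ncard ≤ (Zs T).card := by
      rw [← Set.ncard_coe_finset]
      exact Set.ncard_le_ncard (ZZ_subset T) (Finset.finite_toSet _)
    have h2 : ((ZZ T).ncard : ℝ) ≤ (Zs T).card := by exact_mod_cast h1
    have h3 := card_Zs T hT
    have hT1 : (1 : ℝ) ≤ T := by exact_mod_cast hT
    have h4 := log_le_Z1 ε hε T hT
    have hlog : Real.log ((T ^ 2 : ℕ) : ℝ) = 2 * Real.log T := by
      push_cast; rw [Real.log_pow]; norm_num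
    have hlog0 : 0 ≤ Real.log (T : ℝ) := Real.log_nonneg hT1
    rw [hlog] at h3
    have h5 : (T : ℝ) ^ (4 + ε) = (T : ℝ) ^ 4 * (T : ℝ) ^ ε := by
      rw [Real.rpow_add (by linarith)]; norm_cast
    rw [h5]
    calc ((ZZ T).ncard : ℝ) ≤ (2 * T + 1) * (3 * T ^ 3 * (2 * (1 + 2 * Real.log T))) := h2.trans h3
      _ ≤ (3 * T) * (3 * T ^ 3 * (2 * (2 * (1 + Real.log T)))) := by gcongr <;> linarith
      _ = 36 * (T ^ 4 * (1 + Real.log T)) := by ring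
      _ ≤ 36 * (T ^ 4 * ((1 + 1 / ε) * (T : ℝ) ^ ε)) := by gcongr
      _ = 36 * (1 + 1 / ε) * (T ^ 4 * (T : ℝ) ^ ε) := by ring

end Pool.Agent.helper3.FT
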