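import Pool.Agent.helper3.FT.Defs

set_option autoImplicit false

namespace Pool.Agent.helper3.FT

open Finset

lemma S_yy_one : yy 1 = 1 := by simp [yy]

lemma S_yy_pos (d : ℕ) : 0 < yy d := by
  unfold yy
  exact Finset.prod_pos (fun p hp => (Nat.prime_of_mem_primeFactors (Finset.mem_of_mem_erase hp)).pos)

lemma S_yy_mul {m n : ℕ} (h : Nat.Coprime m n) : yy (m * n) = yy m * yy n := by
  unfold yy
  rw [h.primeFactors_mul, Finset.erase_union_distrib, Finset.prod_union]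
  exact Finset.disjoint_of_subset_left (Finset.erase_subset _ _)
    (Finset.disjoint_of_subset_right (Finset.erase_subset _ _) h.disjoint_primeFactors)

lemma S_yy_pow {p : ℕ} (hp : p.Prime) (n : ℕ) (hn : n ≠ 0) :
    yy (p ^ n) = if p = 5 then 1 else p := by
  unfold yy
  rw [Nat.primeFactors_prime_pow hn hp]
  split_ifs with h
  · subst h; simp
  · rw [Finset.erase_eq_of_notMem]
    · simp
    · simpa using fun h' => h h'.symm

/-- the summand of Rankin's trick -/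
noncomputable def Sf (ε : ℝ) (d : ℕ) : ℝ := (d : ℝ) ^ (-ε) / yy d

lemma Sf_nonneg (ε : ℝ) (d : ℕ) : 0 ≤ Sf ε d := by
  unfold Sf; positivity

lemma Sf_one (ε : ℝ) : Sf ε 1 = 1 := by simp [Sf, S_yy_one]

lemma Sf_mul (ε : ℝ) {m n : ℕ} (h : Nat.Coprime m n) : Sf ε (m * n) = Sf ε m * Sf ε n := by
  unfold Sf
  rw [S_yy_mul h]
  push_cast
  rw [Real.mul_rpow (Nat.cast_nonneg _) (Nat.cast_nonneg _)]
  ring

lemma Sf_pow_le (ε : ℝ) (p : ℕ) (n : ℕ) : Sf ε (p ^ n) ≤ ((p : ℝ) ^ (-ε)) ^ n := by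
  unfold Sf
  have h1 : (1 : ℝ) ≤ yy (p ^ n) := by exact_mod_cast S_yy_pos _
  rw [Nat.cast_pow, ← Real.rpow_natCast (p : ℝ) n, ← Real.rpow_mul (Nat.cast_nonneg _),
    ← Real.rpow_natCast ((p : ℝ) ^ (-ε)) n, ← Real.rpow_mul (Nat.cast_nonneg _),
    mul_comm (n : ℝ) (-ε)]
  exact div_le_self (by positivity) h1

lemma S_r_lt {ε : ℝ} (hε : 0 < ε) {p : ℕ} (hp : p.Prime) : (p : ℝ) ^ (-ε) < 1 := by
  apply Real.rpow_lt_one_of_one_lt_of_neg
  · exact_mod_cast hp.one_lt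
  · linarith

lemma S_r_le {ε : ℝ} (hε : 0 < ε) {p : ℕ} (hp : p.Prime) : (p : ℝ) ^ (-ε) ≤ (2 : ℝ) ^ (-ε) := by
  rw [Real.rpow_neg (Nat.cast_nonneg _), Real.rpow_neg (by norm_num)]
  have : (2 : ℝ) ≤ p := by exact_mod_cast hp.two_le
  gcongr

lemma Sf_summable {ε : ℝ} (hε : 0 < ε) {p : ℕ} (hp : p.Prime) :
    Summable (fun n : ℕ => ‖Sf ε (p ^ n)‖) := by
  refine Summable.of_nonneg_of_le (fun n => norm_nonneg _) (fun n => ?_)
    (summable_geometric_of_lt_one (r := (p : ℝ) ^ (-ε)) (by positivity) (S_r_lt hε hp))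
  rw [Real.norm_of_nonneg (Sf_nonneg _ _)]
  exact Sf_pow_le _ _ _

lemma Sf_local {ε : ℝ} (hε : 0 < ε) {p : ℕ} (hp : p.Prime) :
    ∑' n : ℕ, Sf ε (p ^ n) ≤ (if p = 5 then (1 - (2 : ℝ) ^ (-ε))⁻¹ else 1) *
      Real.exp ((1 - (2 : ℝ) ^ (-ε))⁻¹ * (p : ℝ) ^ (-(1 + ε))) := by
  have hr := S_r_lt hε hp
  have hr0 : (0 : ℝ) ≤ (p : ℝ) ^ (-ε) := by positivity
  have hle := S_r_le hε hp
  have h2 : (2 : ℝ) ^ (-ε) < 1 := by
    have := S_r_lt hε Nat.prime_two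
    exact_mod_cast this
  have hinv : (1 - (p : ℝ) ^ (-ε))⁻¹ ≤ (1 - (2 : ℝ) ^ (-ε))⁻¹ := by
    apply inv_anti₀ <;> linarith
  have hc1 : (1 : ℝ) ≤ (1 - (2 : ℝ) ^ (-ε))⁻¹ := by
    apply (one_le_inv₀ (by linarith)).2
    have : (0 : ℝ) ≤ (2 : ℝ) ^ (-ε) := by positivity
    linarith
  have hsum := (Sf_summable hε hp).of_norm
  split_ifs with h5
  · have h1 : ∑' n : ℕ, Sf ε (p ^ n) ≤ (1 - (p : ℝ) ^ (-ε))⁻¹ := by
      rw [← tsum_geometric_of_lt_one hr0 hr]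
      exact hsum.tsum_le_tsum (fun n => Sf_pow_le _ _ _) (summable_geometric_of_lt_one hr0 hr)
    have h3 : (1 : ℝ) ≤ Real.exp ((1 - (2 : ℝ) ^ (-ε))⁻¹ * (p : ℝ) ^ (-(1 + ε))) := by
      apply Real.one_le_exp; positivity
    nlinarith
  · rw [one_mul, hsum.tsum_eq_zero_add]
    have hp0 : (0 : ℝ) < p := by exact_mod_cast hp.pos
    have h1 : ∀ n : ℕ, Sf ε (p ^ (n + 1)) = (p : ℝ) ^ (-(1 + ε)) * ((p : ℝ) ^ (-ε)) ^ n := by
      intro n
      unfold Sf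
      rw [S_yy_pow hp _ (Nat.succ_ne_zero n), if_neg h5, Nat.cast_pow,
        ← Real.rpow_natCast (p : ℝ) (n + 1), ← Real.rpow_mul (Nat.cast_nonneg _),
        ← Real.rpow_natCast ((p : ℝ) ^ (-ε)) n, ← Real.rpow_mul (Nat.cast_nonneg _),
        ← Real.rpow_add hp0, div_eq_mul_inv, ← Real.rpow_neg_one (p : ℝ), ← Real.rpow_add hp0]
      congr 1; push_cast; ring
    simp only [h1, pow_zero, Sf_one]
    rw [tsum_mul_left, tsum_geometric_of_lt_one hr0 hr]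
    have h3 := Real.add_one_le_exp ((1 - (2 : ℝ) ^ (-ε))⁻¹ * (p : ℝ) ^ (-(1 + ε)))
    have h4 : (p : ℝ) ^ (-(1 + ε)) * (1 - (p : ℝ) ^ (-ε))⁻¹
        ≤ (1 - (2 : ℝ) ^ (-ε))⁻¹ * (p : ℝ) ^ (-(1 + ε)) := by
      rw [mul_comm]; gcongr
    linarith

/-- S -/
theorem yy_sum (ε : ℝ) (hε : 0 < ε) : ∃ C : ℝ, 1 ≤ C ∧ ∀ D : ℕ, 1 ≤ D →
    ∑ d ∈ Icc 1 D, (1 : ℝ) / (yy d : ℝ) ≤ C * (D : ℝ) ^ ε := by
  set c : ℝ := (1 - (2 : ℝ) ^ (-ε))⁻¹ with hc
  have h2 : (2 : ℝ) ^ (-ε) < 1 := by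
    have := S_r_lt hε Nat.prime_two
    exact_mod_cast this
  have hc1 : (1 : ℝ) ≤ c := by
    apply (one_le_inv₀ (by linarith)).2
    have : (0 : ℝ) ≤ (2 : ℝ) ^ (-ε) := by positivity
    linarith
  have hsum : Summable (fun n : ℕ => (n : ℝ) ^ (-(1 + ε))) :=
    Real.summable_nat_rpow.2 (by linarith)
  set Z : ℝ := ∑' n : ℕ, (n : ℝ) ^ (-(1 + ε)) with hZ
  have hZ0 : 0 ≤ Z := tsum_nonneg (fun n => by positivity)
  refine ⟨c * Real.exp (c * Z), ?_, fun D hD => ?_⟩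
  · have : 1 ≤ Real.exp (c * Z) := Real.one_le_exp (by positivity)
    nlinarith
  · -- Rankin
    have hD0 : (0 : ℝ) < D := by exact_mod_cast hD
    have h1 : ∑ d ∈ Icc 1 D, (1 : ℝ) / (yy d : ℝ) ≤ (D : ℝ) ^ ε * ∑ d ∈ Icc 1 D, Sf ε d := by
      rw [Finset.mul_sum]
      refine Finset.sum_le_sum (fun d hd => ?_)
      rw [Finset.mem_Icc] at hd
      have hd0 : (0 : ℝ) < d := by exact_mod_cast hd.1
      have hy : (0 : ℝ) < yy d := by exact_mod_cast S_yy_pos d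
      unfold Sf
      rw [mul_div_assoc', div_le_div_iff_of_pos_right hy]
      rw [Real.rpow_neg hd0.le, ← div_eq_mul_inv, le_div_iff₀ (by positivity), one_mul]
      have : (d : ℝ) ≤ D := by exact_mod_cast hd.2
      gcongr
    obtain ⟨_, hs⟩ := EulerProduct.summable_and_hasSum_factoredNumbers_prod_filter_prime_tsum
      (f := Sf ε) (Sf_one ε) (fun h => Sf_mul ε h) (fun hp => Sf_summable hε hp)
      (Finset.range (D + 1))
    have h3 : ∑ d ∈ Icc 1 D, Sf ε d ≤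
        ∏ p ∈ Finset.range (D + 1) with p.Prime, ∑' n : ℕ, Sf ε (p ^ n) := by
      have hmem : ∀ d ∈ Icc 1 D, d ∈ Nat.factoredNumbers (Finset.range (D + 1)) := by
        intro d hd
        rw [Finset.mem_Icc] at hd
        rw [Nat.mem_factoredNumbers']
        intro p hp hpd
        rw [Finset.mem_range]
        have := Nat.le_of_dvd (by omega) hpd
        omega
      classical
      rw [← Finset.sum_subtype_of_mem (f := Sf ε)
        (p := fun d => d ∈ Nat.factoredNumbers (Finset.range (D + 1))) hmem]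
      exact sum_le_hasSum _ (fun _ _ => Sf_nonneg _ _) hs
    have h4 : ∏ p ∈ Finset.range (D + 1) with p.Prime, ∑' n : ℕ, Sf ε (p ^ n)
        ≤ c * Real.exp (c * Z) := by
      calc ∏ p ∈ Finset.range (D + 1) with p.Prime, ∑' n : ℕ, Sf ε (p ^ n)
          ≤ ∏ p ∈ Finset.range (D + 1) with p.Prime, ((if p = 5 then c else 1) *
            Real.exp (c * (p : ℝ) ^ (-(1 + ε)))) := by
            refine Finset.prod_le_prod (fun p _ => tsum_nonneg (fun _ => Sf_nonneg _ _))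
              (fun p hp => Sf_local hε (Finset.mem_filter.1 hp).2)
        _ = (∏ p ∈ Finset.range (D + 1) with p.Prime, (if p = 5 then c else 1)) *
            Real.exp (∑ p ∈ Finset.range (D + 1) with p.Prime, c * (p : ℝ) ^ (-(1 + ε))) := by
            rw [Finset.prod_mul_distrib, Real.exp_sum]
        _ ≤ c * Real.exp (c * Z) := by
            have hA : (∏ p ∈ Finset.range (D + 1) with p.Prime, (if p = 5 then c else 1)) ≤ c := by
              rw [Finset.prod_ite_eq']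
              split_ifs
              · exact le_refl _
              · exact hc1
            have hB : ∑ p ∈ Finset.range (D + 1) with p.Prime, c * (p : ℝ) ^ (-(1 + ε)) ≤ c * Z := by
              rw [← Finset.mul_sum]
              gcongr
              exact hsum.sum_le_tsum _ (fun _ _ => by positivity)
            gcongr
    calc ∑ d ∈ Icc 1 D, (1 : ℝ) / (yy d : ℝ) ≤ (D : ℝ) ^ ε * ∑ d ∈ Icc 1 D, Sf ε d := h1
      _ ≤ (D : ℝ) ^ ε * (c * Real.exp (c * Z)) := by gcongr; exact h3.trans h4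
      _ = c * Real.exp (c * Z) * (D : ℝ) ^ ε := by ring

end Pool.Agent.helper3.FT
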