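import Pool.Agent.helper3.FT.Defs

set_option autoImplicit false

namespace Pool.Agent.helper3.FT

open Finset

lemma E3_e_add (x y : ℝ) : e (x + y) = e x * e y := by
  unfold e
  rw [← Complex.exp_add]; congr 1; push_cast; ring

lemma E3_e_neg_conj (x : ℝ) : (starRingEnd ℂ) (e x) = e (-x) := by
  unfold e
  rw [← Complex.exp_conj]
  congr 1
  simp only [map_mul, Complex.conj_ofReal, Complex.conj_I, map_ofNat]
  push_cast; ring

lemma E3_e_intCast (n : ℤ) : e n = 1 := by
  unfold e
  have := Complex.exp_int_mul_two_pi_mul_I n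
  rw [← this]; congr 1; push_cast; ring

lemma E3_e_re (x : ℝ) : (e x).re = Real.cos (2 * Real.pi * x) := by
  unfold e
  rw [show (2 * Real.pi * Complex.I * x : ℂ) = ((2 * Real.pi * x : ℝ) : ℂ) * Complex.I by
    push_cast; ring]
  exact Complex.exp_ofReal_mul_I_re _

/-- the Fejer kernel is large near the integers -/
lemma E3_fejer_low (x : ℝ) (H : ℕ) (hH : 1 ≤ H) (hx : nd x * (8 * H) ≤ 1) :
    (H : ℝ) ^ 2 / 2 ≤ ‖∑ h ∈ Finset.range H, e (h * x)‖ ^ 2 := by
  have hH0 : (0 : ℝ) < H := by exact_mod_cast hH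
  have hre : ∀ h ∈ Finset.range H, √2 / 2 ≤ (e (h * x)).re := by
    intro h hh
    rw [E3_e_re]
    have hhH : (h : ℝ) ≤ H := by exact_mod_cast (Finset.mem_range.1 hh).le
    have e1 : Real.cos (2 * Real.pi * (h * x))
        = Real.cos (2 * Real.pi * (h * |x - round x|)) := by
      have a1 : 2 * Real.pi * (h * |x - round x|) = |2 * Real.pi * (h * (x - round x))| := by
        rw [abs_mul, abs_mul (h : ℝ), Nat.abs_cast, abs_of_pos Real.two_pi_pos]
      rw [a1, Real.cos_abs]
      have a2 : 2 * Real.pi * (h * (x - round x))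
          = 2 * Real.pi * (h * x) - ((h * round x : ℤ) : ℝ) * (2 * Real.pi) := by
        push_cast; ring
      rw [a2, Real.cos_sub_int_mul_two_pi]
    rw [e1, ← Real.cos_pi_div_four]
    have hnd : 0 ≤ nd x := abs_nonneg _
    have h1 : 2 * Real.pi * (h * |x - round x|) ≤ Real.pi / 4 := by
      have : (h : ℝ) * nd x ≤ 1 / 8 := by
        have h2 : (h : ℝ) * nd x ≤ H * nd x := by gcongr
        nlinarith
      have h3 := Real.pi_pos
      unfold nd at this
      nlinarith
    refine Real.cos_le_cos_of_nonneg_of_le_pi ?_ ?_ h1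
    · positivity
    · linarith [Real.pi_pos]
  have hs : (H : ℝ) * (√2 / 2) ≤ (∑ h ∈ Finset.range H, e (h * x)).re := by
    rw [Complex.re_sum]
    have := Finset.card_nsmul_le_sum (Finset.range H) (fun h => (e (h * x)).re) (√2 / 2) hre
    rwa [Finset.card_range, nsmul_eq_mul] at this
  have h2 := (Complex.re_le_norm (∑ h ∈ Finset.range H, e (h * x)))
  have h3 : (H : ℝ) * (√2 / 2) ≤ ‖∑ h ∈ Finset.range H, e (h * x)‖ := hs.trans h2
  have h4 : ((H : ℝ) * (√2 / 2)) ^ 2 = (H : ℝ) ^ 2 / 2 := by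
    rw [mul_pow, div_pow, Real.sq_sqrt (by norm_num)]; ring
  rw [← h4]
  gcongr

/-- a row of differences -/
lemma E3_row_le (g : ℕ → ℝ) (hg : ∀ j, 0 ≤ g j) (H a : ℕ) (ha : a < H) :
    ∑ b ∈ Finset.range H, g ((a : ℤ) - b).natAbs ≤ g 0 + 2 * ∑ j ∈ Ico 1 H, g j := by
  classical
  have hsplit : Finset.range H = ((Finset.range H).filter (fun b => b < a) ∪ {a}) ∪
      (Finset.range H).filter (fun b => a < b) := by
    ext b
    simp only [Finset.mem_union, Finset.mem_filter, Finset.mem_range, Finset.mem_singleton]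
    omega
  rw [hsplit, Finset.sum_union, Finset.sum_union, Finset.sum_singleton]
  · have h1 : ∑ b ∈ (Finset.range H).filter (fun b => b < a), g ((a : ℤ) - b).natAbs
        ≤ ∑ j ∈ Ico 1 H, g j := by
      have e1 : ∑ b ∈ (Finset.range H).filter (fun b => b < a), g ((a : ℤ) - b).natAbs
          = ∑ j ∈ ((Finset.range H).filter (fun b => b < a)).image (fun b => a - b), g j := by
        rw [Finset.sum_image]
        · refine Finset.sum_congr rfl (fun b hb => ?_)
          simp only [Finset.mem_filter, Finset.mem_range] at hb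
          congr 1; omega
        · intro b hb c hc h
          simp only [Finset.coe_filter, Finset.mem_range, Set.mem_ofPred_eq] at hb hc
          simp only at h
          omega
      rw [e1]
      refine Finset.sum_le_sum_of_subset_of_nonneg ?_ (fun j _ _ => hg j)
      intro j hj
      simp only [Finset.mem_image, Finset.mem_filter, Finset.mem_range] at hj
      rw [Finset.mem_Ico]
      omega
    have h2 : ∑ b ∈ (Finset.range H).filter (fun b => a < b), g ((a : ℤ) - b).natAbs
        ≤ ∑ j ∈ Ico 1 H, g j := by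
      have e1 : ∑ b ∈ (Finset.range H).filter (fun b => a < b), g ((a : ℤ) - b).natAbs
          = ∑ j ∈ ((Finset.range H).filter (fun b => a < b)).image (fun b => b - a), g j := by
        rw [Finset.sum_image]
        · refine Finset.sum_congr rfl (fun b hb => ?_)
          simp only [Finset.mem_filter, Finset.mem_range] at hb
          congr 1; omega
        · intro b hb c hc h
          simp only [Finset.coe_filter, Finset.mem_range, Set.mem_ofPred_eq] at hb hc
          simp only at h
          omega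
      rw [e1]
      refine Finset.sum_le_sum_of_subset_of_nonneg ?_ (fun j _ _ => hg j)
      intro j hj
      simp only [Finset.mem_image, Finset.mem_filter, Finset.mem_range] at hj
      rw [Finset.mem_Ico]
      omega
    have h3 : g ((a : ℤ) - a).natAbs = g 0 := by simp
    rw [h3]; linarith
  · rw [Finset.disjoint_left]
    intro b h1 h2
    simp only [Finset.mem_filter, Finset.mem_range, Finset.mem_singleton] at h1 h2
    omega
  · rw [Finset.disjoint_left]
    intro b h1 h2
    simp only [Finset.mem_union, Finset.mem_filter, Finset.mem_range, Finset.mem_singleton] at h1 h2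
    omega

/-- E3 -/
theorem fejer {ι : Type} (s : Finset ι) (x : ι → ℝ) (H : ℕ) (hH : 1 ≤ H) :
    ((s.filter (fun i => nd (x i) * (8 * H) ≤ 1)).card : ℝ) ≤
      2 / H * (s.card + 2 * ∑ h ∈ Ico 1 H, ‖∑ i ∈ s, e (h * x i)‖) := by
  have hH0 : (0 : ℝ) < H := by exact_mod_cast hH
  set g : ℕ → ℝ := fun j => ‖∑ i ∈ s, e (j * x i)‖ with hg
  have hg0 : ∀ j, 0 ≤ g j := fun j => norm_nonneg _
  -- norm of the sums with an integer frequency
  have hS : ∀ j : ℤ, ‖∑ i ∈ s, e (j * x i)‖ = g j.natAbs := by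
    intro j
    rcases Int.natAbs_eq j with h | h
    · simp only [hg]; rw [h]; simp
    · simp only [hg]
      rw [← Complex.norm_conj, map_sum]
      congr 1
      refine Finset.sum_congr rfl (fun i _ => ?_)
      rw [E3_e_neg_conj]
      congr 1
      rw [h]; push_cast; simp
  have hmain : ∑ i ∈ s, ‖∑ h ∈ Finset.range H, e (h * x i)‖ ^ 2
      ≤ H * (g 0 + 2 * ∑ j ∈ Ico 1 H, g j) := by
    have e1 : ((∑ i ∈ s, ‖∑ h ∈ Finset.range H, e (h * x i)‖ ^ 2 : ℝ) : ℂ)
        = ∑ a ∈ Finset.range H, ∑ b ∈ Finset.range H, ∑ i ∈ s, e (((a : ℤ) - b : ℤ) * x i) := by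
      push_cast
      have e2 : ∀ i ∈ s, ((‖∑ h ∈ Finset.range H, e (h * x i)‖ : ℂ)) ^ 2
          = ∑ a ∈ Finset.range H, ∑ b ∈ Finset.range H, e (((a : ℤ) - b : ℤ) * x i) := by
        intro i _
        rw [← Complex.mul_conj', map_sum, Finset.sum_mul_sum]
        refine Finset.sum_congr rfl (fun a _ => Finset.sum_congr rfl (fun b _ => ?_))
        rw [E3_e_neg_conj, ← E3_e_add]
        congr 1; push_cast; ring
      rw [Finset.sum_congr rfl e2, Finset.sum_comm]
      refine Finset.sum_congr rfl (fun a _ => ?_)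
      rw [Finset.sum_comm]
      refine Finset.sum_congr rfl (fun b _ => Finset.sum_congr rfl (fun i _ => ?_))
      push_cast; rfl
    have e3 : ∑ i ∈ s, ‖∑ h ∈ Finset.range H, e (h * x i)‖ ^ 2
        = ‖((∑ i ∈ s, ‖∑ h ∈ Finset.range H, e (h * x i)‖ ^ 2 : ℝ) : ℂ)‖ := by
      rw [Complex.norm_real, Real.norm_of_nonneg]
      exact Finset.sum_nonneg (fun _ _ => by positivity)
    rw [e3, e1]
    refine (norm_sum_le _ _).trans ?_
    have e4 : ∀ a ∈ Finset.range H,
        ‖∑ b ∈ Finset.range H, ∑ i ∈ s, e (((a : ℤ) - b : ℤ) * x i)‖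
          ≤ g 0 + 2 * ∑ j ∈ Ico 1 H, g j := by
      intro a ha
      refine (norm_sum_le _ _).trans ?_
      rw [Finset.sum_congr rfl (fun b _ => hS _)]
      exact E3_row_le g hg0 H a (Finset.mem_range.1 ha)
    refine (Finset.sum_le_sum e4).trans ?_
    rw [Finset.sum_const, Finset.card_range, nsmul_eq_mul]
  have hlow : ((s.filter (fun i => nd (x i) * (8 * H) ≤ 1)).card : ℝ) * ((H : ℝ) ^ 2 / 2)
      ≤ ∑ i ∈ s, ‖∑ h ∈ Finset.range H, e (h * x i)‖ ^ 2 := by
    refine le_trans ?_ (Finset.sum_le_sum_of_subset_of_nonneg (Finset.filter_subset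
      (fun i => nd (x i) * (8 * H) ≤ 1) s) (fun _ _ _ => by positivity))
    have := Finset.card_nsmul_le_sum (s.filter (fun i => nd (x i) * (8 * H) ≤ 1))
      (fun i => ‖∑ h ∈ Finset.range H, e (h * x i)‖ ^ 2) ((H : ℝ) ^ 2 / 2)
      (fun i hi => E3_fejer_low (x i) H hH (Finset.mem_filter.1 hi).2)
    rwa [nsmul_eq_mul] at this
  have hg00 : g 0 = s.card := by
    simp only [hg]
    have : ∀ i ∈ s, e ((0 : ℕ) * x i) = 1 := by
      intro i _
      have := E3_e_intCast 0
      simpa using this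
    rw [Finset.sum_congr rfl this]
    simp
  rw [hg00] at hmain
  have h := hlow.trans hmain
  have h2 : ((s.filter (fun i => nd (x i) * (8 * H) ≤ 1)).card : ℝ)
      ≤ (H * (s.card + 2 * ∑ j ∈ Ico 1 H, g j)) / ((H : ℝ) ^ 2 / 2) := by
    rw [le_div_iff₀ (by positivity)]; exact h
  refine h2.trans (le_of_eq ?_)
  field_simp

end Pool.Agent.helper3.FT
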