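import Pool.Agent.helper77.FT.E1
import Pool.Agent.helper63.FT.E2

set_option autoImplicit false

namespace Pool.Agent.helper3.FT

open Finset

/-- E12 (from E1, E2) -/
theorem weyl_bound : ∃ C : ℝ, 0 ≤ C ∧ ∀ M G : ℕ, 1 ≤ M → 1 ≤ G → ∀ a b c : ℝ,
    ‖ES M G a b c‖ ^ 2 ≤ C * (1 + Real.log M) * (1 + Real.log G) * M * G *
      ((nearPts M G a b c).card : ℝ) := by
  obtain ⟨C, hC, h⟩ := cells
  refine ⟨C, hC, fun M G hM hG a b c => ?_⟩
  exact (weyl M G a b c).trans (h M G hM hG (2 * a) b b (2 * c))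

end Pool.Agent.helper3.FT
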