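import Pool.Agent.helper65.FT.E3

set_option autoImplicit false

namespace Pool.Agent.helper3.FT

open Finset

/-- R0 -/
theorem exists_res (n k : ℤ) (_hn : n ≠ 0) (_hk : k ≠ 0) (h : IsCoprime n k) :
    ∃ α β γ : ℤ, Res n k α β γ := by
  obtain ⟨x, y, hxy⟩ : IsCoprime (n ^ 5) k := h.pow_left
  obtain ⟨x', y', hxy'⟩ : IsCoprime (k ^ 3) (n ^ 3) := h.symm.pow
  obtain ⟨x'', y'', hxy''⟩ : IsCoprime (k ^ 5) (n ^ 3) := h.symm.pow
  refine ⟨x * n ^ 3, -(x' * k), x'' * k * n ^ 2, ?_, ?_, ?_, ?_, ?_, ?_⟩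
  · exact Dvd.intro_left _ rfl
  · exact ⟨y', by linear_combination (-1 : ℤ) * hxy'⟩
  · exact ⟨-(n ^ 2 * y''), by linear_combination n ^ 2 * hxy''⟩
  · exact ⟨-y, by linear_combination hxy⟩
  · exact ⟨-x', by ring⟩
  · exact ⟨x'' * n ^ 2, by ring⟩

/-- R1 -/
theorem Res.dvd {n k α β γ : ℤ} (hr : Res n k α β γ) (_hn : n ≠ 0) (_hk : k ≠ 0)
    (h : IsCoprime n k) (m g z : ℤ) (h1 : n ^ 3 ∣ z * k ^ 4 + m * g * k ^ 2 - g ^ 2 * n ^ 2)
    (h2 : k ∣ m ^ 2 - z * n ^ 2) : n ^ 3 * k ∣ z - (α * m ^ 2 + β * m * g + γ * g ^ 2) := by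
  obtain ⟨a, ha⟩ := hr.hα
  obtain ⟨b, hb⟩ := hr.hβ
  obtain ⟨c, hc⟩ := hr.hγ
  obtain ⟨a', ha'⟩ := hr.kα
  obtain ⟨b', hb'⟩ := hr.kβ
  obtain ⟨c', hc'⟩ := hr.kγ
  obtain ⟨r, hr1⟩ := h1
  obtain ⟨s, hs⟩ := h2
  have hcop : IsCoprime (n ^ 3) k := h.pow_left
  refine hcop.mul_dvd ?_ ?_
  · have h4 : IsCoprime (n ^ 3) (k ^ 4) := h.pow
    refine h4.dvd_of_dvd_mul_left ⟨r - a * m ^ 2 * k ^ 4 - b * k ^ 2 * m * g - c * g ^ 2, ?_⟩
    linear_combination hr1 - m ^ 2 * k ^ 4 * ha - k ^ 2 * m * g * hb - g ^ 2 * hc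
  · have h4 : IsCoprime k (n ^ 2) := h.symm.pow_right
    refine h4.dvd_of_dvd_mul_left
      ⟨-s - a' * m ^ 2 - b' * n ^ 2 * m * g - c' * n ^ 2 * g ^ 2, ?_⟩
    linear_combination -hs - m ^ 2 * ha' - n ^ 2 * m * g * hb' - n ^ 2 * g ^ 2 * hc'

/-- the triples `(m, g, z)` for one pair `(n, k)` -/
noncomputable def fibre (Q M G n k : ℕ) : Finset (ℤ × ℤ × ℤ) :=
  (Icc (-(M : ℤ)) M ×ˢ Icc (-(G : ℤ)) G ×ˢ Icc (-(Q : ℤ)) Q).filter
    (fun t => ((n : ℤ) ^ 3 ∣ t.2.2 * (k : ℤ) ^ 4 + t.1 * t.2.1 * (k : ℤ) ^ 2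
        - t.2.1 ^ 2 * (n : ℤ) ^ 2) ∧ ((k : ℤ) ∣ t.1 ^ 2 - t.2.2 * (n : ℤ) ^ 2))

lemma R_card_box (M : ℕ) : (Icc (-(M : ℤ)) M).card = 2 * M + 1 := by
  rw [Int.card_Icc]; omega

/-- integers in `[-Q, Q]` in one residue class modulo `q` -/
lemma R_card_class (S : Finset ℤ) (Q : ℕ) (q : ℤ) (hq : 0 < q) (hS : ∀ z ∈ S, |z| ≤ Q)
    (hc : ∀ z ∈ S, ∀ w ∈ S, q ∣ z - w) : (S.card : ℝ) ≤ 2 * Q / q + 1 := by
  rcases S.eq_empty_or_nonempty with h | h
  · subst h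
    have : (0 : ℝ) < q := by exact_mod_cast hq
    simp; positivity
  · set w := S.min' h with hw
    have hwS : w ∈ S := S.min'_mem h
    have hle : S.card ≤ (Finset.range ((2 * Q / q).toNat + 1)).card := by
      refine Finset.card_le_card_of_injOn (fun z => ((z - w) / q).toNat) ?_ ?_
      · intro z hz
        have h1 : w ≤ z := S.min'_le z hz
        have h2 := abs_le.1 (hS z hz)
        have h3 := abs_le.1 (hS w hwS)
        have h4 : (z - w) / q ≤ 2 * Q / q := Int.ediv_le_ediv hq (by linarith [h2.2, h3.1])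
        simp only [Finset.coe_range, Set.mem_Iio]
        have := Int.toNat_le_toNat h4
        omega
      · intro z hz z' hz' he
        have h1 : w ≤ z := S.min'_le z hz
        have h1' : w ≤ z' := S.min'_le z' hz'
        have p1 : 0 ≤ (z - w) / q := Int.ediv_nonneg (by linarith) hq.le
        have p2 : 0 ≤ (z' - w) / q := Int.ediv_nonneg (by linarith) hq.le
        have he' : (z - w) / q = (z' - w) / q := by
          simp only at he
          omega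
        obtain ⟨a, ha⟩ := hc z hz w hwS
        obtain ⟨b, hb⟩ := hc z' hz' w hwS
        rw [ha, hb, Int.mul_ediv_cancel_left _ hq.ne', Int.mul_ediv_cancel_left _ hq.ne'] at he'
        subst he'
        linarith
    rw [Finset.card_range] at hle
    have h0 : (0 : ℤ) ≤ 2 * Q / q := Int.ediv_nonneg (by positivity) hq.le
    have h5 : (S.card : ℤ) ≤ 2 * Q / q + 1 := by
      have : ((S.card : ℕ) : ℤ) ≤ (((2 * Q / q).toNat + 1 : ℕ) : ℤ) := by exact_mod_cast hle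
      push_cast at this
      rwa [Int.toNat_of_nonneg h0] at this
    have h6 : (S.card : ℝ) ≤ ((2 * Q / q : ℤ) : ℝ) + 1 := by exact_mod_cast h5
    have h7 : (((2 * Q : ℤ) / q : ℤ) : ℝ) ≤ ((2 * Q : ℤ) : ℝ) / (q : ℝ) := by
      rw [le_div_iff₀ (by exact_mod_cast hq)]
      exact_mod_cast Int.ediv_mul_le _ hq.ne'
    push_cast at h7
    linarith

/-- R2 (from R1) -/
theorem fibre_trivial (Q M G n k : ℕ) (hn : 1 ≤ n) (hk : 1 ≤ k) (hcop : Nat.Coprime n k) :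
    ((fibre Q M G n k).card : ℝ) ≤
      (2 * M + 1) * (2 * G + 1) * (2 * Q / ((n : ℝ) ^ 3 * k) + 1) := by
  classical
  have hn0 : (n : ℤ) ≠ 0 := by exact_mod_cast (by omega : n ≠ 0)
  have hk0 : (k : ℤ) ≠ 0 := by exact_mod_cast (by omega : k ≠ 0)
  have hc : IsCoprime (n : ℤ) k := Nat.isCoprime_iff_coprime.2 hcop
  obtain ⟨α, β, γ, hr⟩ := exists_res n k hn0 hk0 hc
  have hfib : (fibre Q M G n k).card = ∑ p ∈ Icc (-(M : ℤ)) M ×ˢ Icc (-(G : ℤ)) G,
      ((fibre Q M G n k).filter (fun t => (t.1, t.2.1) = p)).card := by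
    refine Finset.card_eq_sum_card_fiberwise ?_
    intro t ht
    simp only [fibre, Finset.coe_filter, Finset.mem_product, Set.mem_ofPred_eq] at ht
    simp only [Finset.coe_product, Set.mem_prod, Finset.mem_coe]
    exact ⟨ht.1.1, ht.1.2.1⟩
  rw [hfib]
  push_cast
  have hone : ∀ p ∈ Icc (-(M : ℤ)) M ×ˢ Icc (-(G : ℤ)) G,
      (((fibre Q M G n k).filter (fun t => (t.1, t.2.1) = p)).card : ℝ)
        ≤ 2 * Q / ((n : ℝ) ^ 3 * k) + 1 := by
    intro p _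
    have hinj : Set.InjOn (fun t : ℤ × ℤ × ℤ => t.2.2)
        ((fibre Q M G n k).filter (fun t => (t.1, t.2.1) = p) : Set (ℤ × ℤ × ℤ)) := by
      intro t ht t' ht' he
      simp only [Finset.coe_filter, Set.mem_ofPred_eq] at ht ht'
      have h1 := ht.2.trans ht'.2.symm
      simp only [Prod.mk.injEq] at h1
      exact Prod.ext h1.1 (Prod.ext h1.2 he)
    rw [← Finset.card_image_of_injOn hinj]
    have hq : (0 : ℤ) < (n : ℤ) ^ 3 * k := by positivity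
    have := R_card_class (((fibre Q M G n k).filter (fun t => (t.1, t.2.1) = p)).image
      (fun t : ℤ × ℤ × ℤ => t.2.2)) Q _ hq ?_ ?_
    · push_cast at this; exact this
    · intro z hz
      obtain ⟨t, ht, rfl⟩ := Finset.mem_image.1 hz
      simp only [fibre, Finset.mem_filter, Finset.mem_product, Finset.mem_Icc] at ht
      exact abs_le.2 ht.1.1.2.2
    · intro z hz w hw
      obtain ⟨t, ht, rfl⟩ := Finset.mem_image.1 hz
      obtain ⟨t', ht', rfl⟩ := Finset.mem_image.1 hw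
      simp only [fibre, Finset.mem_filter, Finset.mem_product, Finset.mem_Icc] at ht ht'
      have d1 := hr.dvd hn0 hk0 hc _ _ _ ht.1.2.1 ht.1.2.2
      have d2 := hr.dvd hn0 hk0 hc _ _ _ ht'.1.2.1 ht'.1.2.2
      have h1 := ht.2.trans ht'.2.symm
      simp only [Prod.mk.injEq] at h1
      have := dvd_sub d1 d2
      rw [h1.1, h1.2] at this
      have e : t.2.2 - t'.2.2 = t.2.2 - (α * t'.1 ^ 2 + β * t'.1 * t'.2.1 + γ * t'.2.1 ^ 2)
          - (t'.2.2 - (α * t'.1 ^ 2 + β * t'.1 * t'.2.1 + γ * t'.2.1 ^ 2)) := by ring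
      show _ ∣ t.2.2 - t'.2.2
      rw [e]; exact this
  refine (Finset.sum_le_sum hone).trans ?_
  rw [Finset.sum_const, nsmul_eq_mul, Finset.card_product, R_card_box, R_card_box]
  push_cast
  exact le_refl _

/-- R3 (from R1, E3) -/
theorem fibre_fejer (Q M G n k H : ℕ) (hn : 1 ≤ n) (hk : 1 ≤ k) (hcop : Nat.Coprime n k)
    (hQ : 1 ≤ Q) (hH : 1 ≤ H) (hq : 8 * Q * H ≤ n ^ 3 * k)
    (α β γ : ℤ) (hr : Res n k α β γ) :
    ((fibre Q M G n k).card : ℝ) ≤ 2 / H * ((2 * M + 1) * (2 * G + 1) +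
      2 * ∑ h ∈ Ico 1 H, ‖ES M G (h * α / ((n : ℝ) ^ 3 * k)) (h * β / ((n : ℝ) ^ 3 * k))
        (h * γ / ((n : ℝ) ^ 3 * k))‖) := by
  classical
  have hn0 : (n : ℤ) ≠ 0 := by exact_mod_cast (by omega : n ≠ 0)
  have hk0 : (k : ℤ) ≠ 0 := by exact_mod_cast (by omega : k ≠ 0)
  have hc : IsCoprime (n : ℤ) k := Nat.isCoprime_iff_coprime.2 hcop
  have hnR : (0 : ℝ) < n := by exact_mod_cast hn
  have hkR : (0 : ℝ) < k := by exact_mod_cast hk
  have hqR : (0 : ℝ) < (n : ℝ) ^ 3 * k := by positivity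
  have hqZ : (0 : ℤ) < (n : ℤ) ^ 3 * k := by positivity
  have hbig : 8 * (Q : ℝ) * H ≤ (n : ℝ) ^ 3 * k := by exact_mod_cast hq
  set x : ℤ × ℤ → ℝ := fun p => (α * p.1 ^ 2 + β * p.1 * p.2 + γ * p.2 ^ 2) / ((n : ℝ) ^ 3 * k)
    with hx
  set s := Icc (-(M : ℤ)) M ×ˢ Icc (-(G : ℤ)) G with hs
  have hF := fejer s x H hH
  have hcard : (s.card : ℝ) = (2 * M + 1) * (2 * G + 1) := by
    rw [hs, Finset.card_product, R_card_box, R_card_box]; push_cast; ring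
  have hES : ∀ h ∈ Ico 1 H, ‖∑ i ∈ s, e (h * x i)‖
      = ‖ES M G (h * α / ((n : ℝ) ^ 3 * k)) (h * β / ((n : ℝ) ^ 3 * k))
        (h * γ / ((n : ℝ) ^ 3 * k))‖ := by
    intro h _
    congr 1
    unfold ES
    rw [hs, Finset.sum_product]
    refine Finset.sum_congr rfl (fun m _ => Finset.sum_congr rfl (fun g _ => ?_))
    congr 1
    simp only [hx]
    field_simp
  rw [hcard, Finset.sum_congr rfl hES] at hF
  refine le_trans ?_ hF
  have hle : (fibre Q M G n k).card ≤ (s.filter (fun i => nd (x i) * (8 * H) ≤ 1)).card := by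
    refine Finset.card_le_card_of_injOn (fun t => (t.1, t.2.1)) ?_ ?_
    · intro t ht
      simp only [fibre, Finset.coe_filter, Finset.mem_product, Set.mem_ofPred_eq,
        Finset.mem_Icc] at ht
      simp only [hs, Finset.coe_filter, Finset.mem_product, Set.mem_ofPred_eq, Finset.mem_Icc]
      refine ⟨⟨ht.1.1, ht.1.2.1⟩, ?_⟩
      obtain ⟨w, hw⟩ := hr.dvd hn0 hk0 hc _ _ _ ht.2.1 ht.2.2
      have hzQ : |(t.2.2 : ℝ)| ≤ Q := by
        have := abs_le.2 ht.1.2.2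
        exact_mod_cast this
      have hxe : x (t.1, t.2.1) = t.2.2 / ((n : ℝ) ^ 3 * k) - w := by
        simp only [hx]
        have hwR : (t.2.2 : ℝ) - (α * t.1 ^ 2 + β * t.1 * t.2.1 + γ * t.2.1 ^ 2)
            = (n : ℝ) ^ 3 * k * w := by exact_mod_cast hw
        field_simp
        linarith
      have hnd : nd (x (t.1, t.2.1)) ≤ Q / ((n : ℝ) ^ 3 * k) := by
        unfold nd
        refine (round_le (x (t.1, t.2.1)) (-w)).trans ?_
        rw [hxe]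
        push_cast
        rw [show (t.2.2 : ℝ) / ((n : ℝ) ^ 3 * k) - w - -(w : ℝ) = t.2.2 / ((n : ℝ) ^ 3 * k) by ring,
          abs_div, abs_of_pos hqR]
        gcongr
      have hH0 : (0 : ℝ) < H := by exact_mod_cast hH
      calc nd (x (t.1, t.2.1)) * (8 * H) ≤ Q / ((n : ℝ) ^ 3 * k) * (8 * H) := by gcongr
        _ = 8 * Q * H / ((n : ℝ) ^ 3 * k) := by ring
        _ ≤ 1 := by rw [div_le_one hqR]; exact hbig
    · intro t ht t' ht' he
      simp only [fibre, Finset.coe_filter, Finset.mem_product, Set.mem_ofPred_eq,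
        Finset.mem_Icc] at ht ht'
      simp only [Prod.mk.injEq] at he
      obtain ⟨h1, h2⟩ := he
      have d1 := hr.dvd hn0 hk0 hc _ _ _ ht.2.1 ht.2.2
      have d2 := hr.dvd hn0 hk0 hc _ _ _ ht'.2.1 ht'.2.2
      rw [h1, h2] at d1
      have d3 := dvd_sub d1 d2
      have e3 : t.2.2 - (α * t'.1 ^ 2 + β * t'.1 * t'.2.1 + γ * t'.2.1 ^ 2)
          - (t'.2.2 - (α * t'.1 ^ 2 + β * t'.1 * t'.2.1 + γ * t'.2.1 ^ 2)) = t.2.2 - t'.2.2 := by
        ring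
      rw [e3] at d3
      have hbigZ : 8 * (Q : ℤ) * H ≤ (n : ℤ) ^ 3 * k := by exact_mod_cast hq
      have hQ' : (1 : ℤ) ≤ Q := by exact_mod_cast hQ
      have hH' : (1 : ℤ) ≤ H := by exact_mod_cast hH
      have hsmall : |t.2.2 - t'.2.2| < (n : ℤ) ^ 3 * k := by
        have a1 : |t.2.2 - t'.2.2| ≤ 2 * Q := by
          rw [abs_le]; constructor <;> linarith [ht.1.2.2.1, ht.1.2.2.2, ht'.1.2.2.1, ht'.1.2.2.2]
        nlinarith
      have hz : t.2.2 - t'.2.2 = 0 := Int.eq_zero_of_abs_lt_dvd d3 hsmall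
      exact Prod.ext h1 (Prod.ext h2 (by linarith))
  exact_mod_cast hle

end Pool.Agent.helper3.FT
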